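import Pool.Agent.helper22.OB.SpecZ

/-!
# Project ob, row ZT4: powers prime to the order of the group
-/

set_option autoImplicit false

namespace Pool.Agent.OB

open Pool.Agent.helper58.DC Pool.Agent.DI Pool.Agent.GR

theorem ZT4_ext {F : Type} [Field F] (f : F →+* ℂ) (τ : F ≃+* F) :
    ∃ σ : ℂ ≃+* ℂ, ∀ x, σ (f x) = f (τ x) := by
  let _ : Algebra F ℂ := f.toAlgebra
  have hf : ∀ x, algebraMap F ℂ x = f x := fun _ => rfl
  obtain ⟨s, hs⟩ := exists_isTranscendenceBasis F ℂ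
  have := IsAlgClosed.isAlgClosure_of_transcendence_basis _ hs
  let e : Algebra.adjoin F (Set.range ((↑) : s → ℂ)) ≃+*
      Algebra.adjoin F (Set.range ((↑) : s → ℂ)) :=
    hs.1.aevalEquiv.symm.toRingEquiv.trans
      ((MvPolynomial.mapEquiv s τ).trans hs.1.aevalEquiv.toRingEquiv)
  refine ⟨IsAlgClosure.equivOfEquiv ℂ ℂ e, fun x => ?_⟩
  have h1 : f x = algebraMap (Algebra.adjoin F (Set.range ((↑) : s → ℂ))) ℂ
      (algebraMap F _ x) := by
    rw [← hf]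
    rfl
  rw [h1, IsAlgClosure.equivOfEquiv_algebraMap]
  have h2 : e (algebraMap F _ x) = algebraMap F _ (τ x) := by
    show hs.1.aevalEquiv (MvPolynomial.mapEquiv s τ (hs.1.aevalEquiv.symm (algebraMap F _ x))) = _
    rw [AlgEquiv.commutes]
    show hs.1.aevalEquiv (MvPolynomial.map (τ : F →+* F) (MvPolynomial.C x)) = _
    rw [MvPolynomial.map_C]
    exact AlgEquiv.commutes _ _
  rw [h2, ← hf]
  rfl

theorem ZT4_cyc (D t : ℕ) (hD : 0 < D) (ht : Nat.Coprime t D) (z : ℂ) (hz : IsPrimitiveRoot z D) :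
    ∃ σ : ℂ ≃+* ℂ, σ z = z ^ t := by
  have : NeZero D := ⟨hD.ne'⟩
  have : NeZero ((D : ℕ) : ℚ) := ⟨by exact_mod_cast hD.ne'⟩
  have : IsCyclotomicExtension {D} ℚ (CyclotomicField D ℚ) :=
    CyclotomicField.isCyclotomicExtension D ℚ
  have hζ := IsCyclotomicExtension.zeta_spec D ℚ (CyclotomicField D ℚ)
  have hζt := hζ.pow_of_coprime t ht
  have hirr : Irreducible (Polynomial.cyclotomic D ℚ) := Polynomial.cyclotomic.irreducible_rat hD
  have hmin : minpoly ℚ (hζ.powerBasis ℚ).gen = minpoly ℚ (hζt.powerBasis ℚ).gen := by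
    rw [IsPrimitiveRoot.powerBasis_gen, IsPrimitiveRoot.powerBasis_gen,
      ← hζ.minpoly_eq_cyclotomic_of_irreducible hirr,
      ← hζt.minpoly_eq_cyclotomic_of_irreducible hirr]
  let τ : CyclotomicField D ℚ ≃ₐ[ℚ] CyclotomicField D ℚ :=
    (hζ.powerBasis ℚ).equivOfMinpoly (hζt.powerBasis ℚ) hmin
  have hτ : τ (IsCyclotomicExtension.zeta D ℚ (CyclotomicField D ℚ)) =
      IsCyclotomicExtension.zeta D ℚ (CyclotomicField D ℚ) ^ t := by
    have := (hζ.powerBasis ℚ).equivOfMinpoly_gen (hζt.powerBasis ℚ) hmin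
    rw [IsPrimitiveRoot.powerBasis_gen, IsPrimitiveRoot.powerBasis_gen] at this
    exact this
  have hmin2 : minpoly ℚ z = minpoly ℚ (hζ.powerBasis ℚ).gen := by
    rw [IsPrimitiveRoot.powerBasis_gen,
      ← hζ.minpoly_eq_cyclotomic_of_irreducible hirr,
      ← hz.minpoly_eq_cyclotomic_of_irreducible hirr]
  let f : CyclotomicField D ℚ →ₐ[ℚ] ℂ := (hζ.powerBasis ℚ).lift z (by
    rw [← hmin2]
    exact minpoly.aeval ℚ z)
  have hf : f (IsCyclotomicExtension.zeta D ℚ (CyclotomicField D ℚ)) = z := by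
    have := (hζ.powerBasis ℚ).lift_gen z (by
      rw [← hmin2]
      exact minpoly.aeval ℚ z)
    exact this
  obtain ⟨σ, hσ⟩ := ZT4_ext f.toRingHom τ.toRingEquiv
  refine ⟨σ, ?_⟩
  have h := hσ (IsCyclotomicExtension.zeta D ℚ (CyclotomicField D ℚ))
  have h3 : f.toRingHom (IsCyclotomicExtension.zeta D ℚ (CyclotomicField D ℚ)) = z := hf
  have h4 : τ.toRingEquiv (IsCyclotomicExtension.zeta D ℚ (CyclotomicField D ℚ)) =
    IsCyclotomicExtension.zeta D ℚ (CyclotomicField D ℚ) ^ t := hτ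
  rw [h4, map_pow, h3] at h
  exact h

theorem ZT4 (hGLI : GLI_stmt) (hGLP : GLP_stmt) : ZT4_stmt := by
  intro G _ _ s hs H ψ hψ
  have hn : 0 < Nat.card G := Nat.card_pos
  have hz : IsPrimitiveRoot (Complex.exp (2 * Real.pi * Complex.I / (Nat.card G : ℂ))) (Nat.card G) :=
    Complex.isPrimitiveRoot_exp (Nat.card G) hn.ne'
  obtain ⟨σ, hσ⟩ := ZT4_cyc (Nat.card G) s hn hs _ hz
  have hall : ∀ ζ : ℂ, ζ ^ Nat.card G = 1 → σ ζ = ζ ^ s := by
    intro ζ hζ
    obtain ⟨i, -, hi⟩ := hz.eq_pow_of_pow_eq_one hζ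
    rw [← hi, map_pow, hσ, ← pow_mul, ← pow_mul, mul_comm s i]
  have h1 := hGLI G H σ ψ hψ
  have h2 : galMap σ ψ = fun g => ψ (g ^ s) := by
    funext g
    exact hGLP G σ s hs hall H ψ hψ g
  rw [← h2]
  exact h1

end Pool.Agent.OB
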