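import Pool.Agent.helper38.OB.Spec

/-!
# MP_d7d65f_nt, row DIG
-/

set_option autoImplicit false

namespace Pool.Agent.OB

open Finset

theorem DIG_per (p : ℕ → Prop) [DecidablePred p] (N : ℕ) (hp : ∀ x, p (N + x) ↔ p x) (k : ℕ) :
    Nat.count p (k * N) = k * Nat.count p N := by
  induction k with
  | zero => simp
  | succ k ih =>
    have h1 : ∀ (k x : ℕ), p (k * N + x) ↔ p x := by
      intro k
      induction k with
      | zero => intro x; rw [Nat.zero_mul, Nat.zero_add]
      | succ k ih' =>
        intro x
        have h2 : (k + 1) * N + x = N + (k * N + x) := by ring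
        rw [h2, hp, ih']
    have h3 : (k + 1) * N = k * N + N := by ring
    rw [h3, Nat.count_add, ih]
    simp only [h1]
    ring

theorem DIG : DIG_stmt := by
  intro b C n m hb hC
  have hBpos : 0 < C * b := Nat.mul_pos hC hb
  have hdiv : ∀ j, (C * b) ^ (j + 1) / C = b * (C * b) ^ j := by
    intro j
    have h1 : (C * b) ^ (j + 1) = C * (b * (C * b) ^ j) := by ring
    rw [h1, Nat.mul_div_cancel_left _ hC]
  simp only [hdiv]
  induction n with
  | zero => simp
  | succ n ih =>
    by_cases hmn : m ≤ n
    · have hset : ((Finset.range ((C * b) ^ (n + 1))).filter fun y =>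
          ∀ j, m ≤ j → j < n + 1 → y % (C * b) ^ (j + 1) < b * (C * b) ^ j) =
          ((Finset.range (b * (C * b) ^ n)).filter fun y =>
            ∀ j, m ≤ j → j < n → y % (C * b) ^ (j + 1) < b * (C * b) ^ j) := by
        ext y
        simp only [Finset.mem_filter, Finset.mem_range]
        constructor
        · rintro ⟨h1, h2⟩
          have h3 := h2 n hmn (Nat.lt_succ_self n)
          rw [Nat.mod_eq_of_lt h1] at h3
          exact ⟨h3, fun j hj hjn => h2 j hj (Nat.lt_succ_of_lt hjn)⟩
        · rintro ⟨h1, h2⟩
          have h3 : b * (C * b) ^ n ≤ (C * b) ^ (n + 1) := by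
            have h4 : (C * b) ^ (n + 1) = C * (b * (C * b) ^ n) := by ring
            rw [h4]
            exact Nat.le_mul_of_pos_left _ hC
          refine ⟨lt_of_lt_of_le h1 h3, fun j hj hjn => ?_⟩
          rcases Nat.lt_or_ge j n with h | h
          · exact h2 j hj h
          · have h5 : j = n := by omega
            rw [h5]
            exact lt_of_le_of_lt (Nat.mod_le _ _) h1
      rw [hset, ← Nat.count_eq_card_filter_range, DIG_per, Nat.count_eq_card_filter_range]
      · have h6 : n + 1 - m = (n - m) + 1 := by omega
        rw [h6]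
        calc b * #{y ∈ Finset.range ((C * b) ^ n) |
              ∀ j, m ≤ j → j < n → y % (C * b) ^ (j + 1) < b * (C * b) ^ j} * C ^ (n - m + 1)
            = (#{y ∈ Finset.range ((C * b) ^ n) |
              ∀ j, m ≤ j → j < n → y % (C * b) ^ (j + 1) < b * (C * b) ^ j} * C ^ (n - m)) *
                (C * b) := by ring
          _ = (C * b) ^ (n + 1) := by rw [ih]; ring
      · intro x
        have h7 : ∀ j, j < n → ((C * b) ^ n + x) % (C * b) ^ (j + 1) = x % (C * b) ^ (j + 1) := by
          intro j hj
          obtain ⟨c, hc⟩ := pow_dvd_pow (C * b) (Nat.succ_le_of_lt hj)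
          rw [hc, Nat.mul_add_mod]
        constructor
        · intro h j hj hjn
          have := h j hj hjn
          rwa [h7 j hjn] at this
        · intro h j hj hjn
          rw [h7 j hjn]
          exact h j hj hjn
    · have h1 : n + 1 - m = 0 := by omega
      rw [h1, pow_zero, mul_one]
      rw [Finset.filter_true_of_mem, Finset.card_range]
      intro y _ j hj hjn
      omega

end Pool.Agent.OB
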